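import Mathlib

/-!
# Odd amicable pairs that are congruent modulo 4: the square parts bound the pair

Part 1: every odd amicable pair `(m, n)` with `m ≡ n (mod 4)` has both members in Euler's form
`p ^ a * M ^ 2`, `p ≡ a ≡ 1 (mod 4)` with `p` a prime not dividing `M`.
Part 2: for an amicable pair `(p ^ a * u, q ^ b * v)` with primes `p ∤ u`, `q ∤ v` the sum of the two
members is at most `2 * (σ u * σ v) ^ 3 * (σ u + σ v)`.
Part 3: for given `u`, `v` and exponents `a`, `b` there is at most one such pair.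
-/

set_option autoImplicit false

namespace Pool.Agent.Results.MP_feace5_nt.SpecialPartsBounded

open ArithmeticFunction Finset

/-- Two distinct positive integers with `σ m = m + n = σ n`. -/
def Amicable (m n : ℕ) : Prop :=
  0 < m ∧ 0 < n ∧ m ≠ n ∧ sigma 1 m = m + n ∧ sigma 1 n = m + n

/-- `n = p ^ a * M ^ 2` with a prime `p ≡ 1 (mod 4)`, `a ≡ 1 (mod 4)` and `p ∤ M`. -/
def EulerForm (n p a M : ℕ) : Prop :=
  p.Prime ∧ p % 4 = 1 ∧ a % 4 = 1 ∧ ¬ p ∣ M ∧ n = p ^ a * M ^ 2

theorem le_sig {n : ℕ} (hn : n ≠ 0) : n ≤ sigma 1 n := by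
  rw [sigma_one_apply]
  exact single_le_sum (f := fun d => d) (fun _ _ => Nat.zero_le _) (Nat.mem_divisors_self n hn)

/-- geometric sums -/
theorem geo {p : ℕ} (hp : p.Prime) (i : ℕ) :
    sigma 1 (p ^ i) * (p - 1) + 1 = p ^ (i + 1) := by
  have h1 : p - 1 + 1 = p := Nat.sub_add_cancel hp.one_lt.le
  have h := geom_sum_mul_add (p - 1) (i + 1)
  rw [h1] at h
  rw [sigma_one_apply_prime_pow hp]
  exact h

/-! ### Part 1: Euler's form -/

theorem pow_case {r e : ℕ} (hr : r.Prime) (ho : Odd r) :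
    (Odd (sigma 1 (r ^ e)) → ∃ s, r ^ e = s ^ 2) ∧
    (sigma 1 (r ^ e) % 4 = 2 → r % 4 = 1 ∧ e % 4 = 1) := by
  have hsum := sigma_one_apply_prime_pow (i := e) hr
  constructor
  · intro h
    have hev : Even e := by
      rw [hsum] at h
      have h2 : (∑ k ∈ range (e + 1), r ^ k) % 2 = (e + 1) % 2 := by
        have hc : ((∑ k ∈ range (e + 1), r ^ k : ℕ) : ZMod 2) = ((e + 1 : ℕ) : ZMod 2) := by
          have hr1 : (r : ZMod 2) = 1 := by
            rw [ZMod.natCast_eq_one_iff_odd]
            exact ho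
          push_cast
          simp [hr1]
        exact (ZMod.natCast_eq_natCast_iff _ _ _).1 hc
      rw [Nat.odd_iff] at h
      rw [Nat.even_iff]
      omega
    obtain ⟨t, ht⟩ := hev
    exact ⟨r ^ t, by rw [← pow_mul, ht]; ring_nf⟩
  · intro h
    have hr4 : r % 4 = 1 ∨ r % 4 = 3 := by
      rw [Nat.odd_iff] at ho
      omega
    rw [hsum] at h
    rcases hr4 with h1 | h3
    · refine ⟨h1, ?_⟩
      have h2 : (∑ k ∈ range (e + 1), r ^ k) % 4 = (e + 1) % 4 := by
        have hc : ((∑ k ∈ range (e + 1), r ^ k : ℕ) : ZMod 4) = ((e + 1 : ℕ) : ZMod 4) := by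
          have hr1 : (r : ZMod 4) = 1 := by
            have : ((r : ℕ) : ZMod 4) = ((1 : ℕ) : ZMod 4) :=
              (ZMod.natCast_eq_natCast_iff _ _ _).2 (by unfold Nat.ModEq; omega)
            simpa using this
          push_cast
          simp [hr1]
        exact (ZMod.natCast_eq_natCast_iff _ _ _).1 hc
      omega
    · exfalso
      have hr1 : (r : ZMod 4) = -1 := by
        have : ((r : ℕ) : ZMod 4) = ((3 : ℕ) : ZMod 4) :=
          (ZMod.natCast_eq_natCast_iff _ _ _).2 (by unfold Nat.ModEq; omega)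
        rw [this]
        decide
      have hc : ((∑ k ∈ range (e + 1), r ^ k : ℕ) : ZMod 4) = 0 ∨
          ((∑ k ∈ range (e + 1), r ^ k : ℕ) : ZMod 4) = 1 := by
        push_cast
        rw [hr1, neg_one_geom_sum]
        split_ifs
        · exact Or.inl rfl
        · exact Or.inr rfl
      rcases hc with hc | hc
      · have h5 : (∑ k ∈ range (e + 1), r ^ k) % 4 = 0 % 4 :=
          (ZMod.natCast_eq_natCast_iff _ 0 4).1 (by simpa using hc)
        omega
      · have h5 : (∑ k ∈ range (e + 1), r ^ k) % 4 = 1 % 4 :=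
          (ZMod.natCast_eq_natCast_iff _ 1 4).1 (by simpa using hc)
        omega

theorem euler_aux (n : ℕ) : n ≠ 0 → Odd n →
    (Odd (sigma 1 n) → ∃ s, n = s ^ 2) ∧
    (sigma 1 n % 4 = 2 → ∃ p a M, EulerForm n p a M) := by
  induction n using Nat.recOnPosPrimePosCoprime with
  | prime_pow r e hr he =>
    intro _ ho
    have hro : Odd r := by
      rcases hr.eq_two_or_odd' with h2 | h2
      · subst h2
        exfalso
        have : Even (2 ^ e) := (even_two.pow_of_ne_zero (by omega))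
        exact (Nat.not_even_iff_odd.2 ho) this
      · exact h2
    obtain ⟨h1, h2⟩ := pow_case (e := e) hr hro
    refine ⟨h1, fun h => ?_⟩
    obtain ⟨h3, h4⟩ := h2 h
    refine ⟨r, e, 1, hr, h3, h4, ?_, by simp⟩
    intro hd
    exact hr.one_lt.ne' (Nat.dvd_one.1 hd)
  | zero =>
    intro h
    exact absurd rfl h
  | one =>
    intro _ _
    refine ⟨fun _ => ⟨1, by simp⟩, fun h => ?_⟩
    simp at h
  | coprime x y hx hy hxy ihx ihy =>
    intro _ ho
    have hxo : Odd x := Nat.Odd.of_mul_right ho |> fun _ => (Nat.odd_mul.1 ho).1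
    have hyo : Odd y := (Nat.odd_mul.1 ho).2
    obtain ⟨x1, x2⟩ := ihx (by omega) hxo
    obtain ⟨y1, y2⟩ := ihy (by omega) hyo
    have hmul : sigma 1 (x * y) = sigma 1 x * sigma 1 y :=
      isMultiplicative_sigma.map_mul_of_coprime hxy
    constructor
    · intro h
      rw [hmul] at h
      obtain ⟨h3, h4⟩ := Nat.odd_mul.1 h
      obtain ⟨s, hs⟩ := x1 h3
      obtain ⟨t, ht⟩ := y1 h4
      exact ⟨s * t, by rw [hs, ht]; ring⟩
    · intro h
      rw [hmul] at h
      have hcase : (sigma 1 x % 2 = 1 ∧ sigma 1 y % 4 = 2) ∨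
          (sigma 1 x % 4 = 2 ∧ sigma 1 y % 2 = 1) := by
        have hh : (sigma 1 x % 4) * (sigma 1 y % 4) % 4 = 2 := by
          rw [← Nat.mul_mod]
          exact h
        have hx4 : sigma 1 x % 4 < 4 := Nat.mod_lt _ (by norm_num)
        have hy4 : sigma 1 y % 4 < 4 := Nat.mod_lt _ (by norm_num)
        generalize hX : sigma 1 x = X at *
        generalize hY : sigma 1 y = Y at *
        generalize hX4 : X % 4 = X4 at *
        generalize hY4 : Y % 4 = Y4 at *
        interval_cases X4 <;> interval_cases Y4 <;> simp at hh <;> omega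
      rcases hcase with ⟨h3, h4⟩ | ⟨h3, h4⟩
      · obtain ⟨s, hs⟩ := x1 (Nat.odd_iff.2 h3)
        obtain ⟨p, a, M, hp, hp4, ha4, hpM, hy'⟩ := y2 h4
        refine ⟨p, a, s * M, hp, hp4, ha4, ?_, by rw [hs, hy']; ring⟩
        intro hd
        rcases (hp.dvd_mul).1 hd with h5 | h5
        · have h6 : p ∣ x := by
            rw [hs]
            exact dvd_pow h5 two_ne_zero
          have h7 : p ∣ y := by
            rw [hy']
            exact (dvd_pow_self p (by omega)).mul_right _
          have h8 := Nat.dvd_gcd h6 h7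
          rw [hxy] at h8
          exact hp.one_lt.ne' (Nat.dvd_one.1 h8)
        · exact hpM h5
      · obtain ⟨s, hs⟩ := y1 (Nat.odd_iff.2 h4)
        obtain ⟨p, a, M, hp, hp4, ha4, hpM, hx'⟩ := x2 h3
        refine ⟨p, a, s * M, hp, hp4, ha4, ?_, by rw [hs, hx']; ring⟩
        intro hd
        rcases (hp.dvd_mul).1 hd with h5 | h5
        · have h6 : p ∣ y := by
            rw [hs]
            exact dvd_pow h5 two_ne_zero
          have h7 : p ∣ x := by
            rw [hx']
            exact (dvd_pow_self p (by omega)).mul_right _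
          have h8 := Nat.dvd_gcd h7 h6
          rw [hxy] at h8
          exact hp.one_lt.ne' (Nat.dvd_one.1 h8)
        · exact hpM h5


/-! ### Part 2: the bound -/

/-- The case `p ≤ q`, in terms of the prime powers `x = p ^ a`, `y = q ^ b` and their divisor sums
`S`, `R`. -/
theorem bound_aux {u v p q A B x y S R r : ℤ} (hp : 2 ≤ p) (hpq : p ≤ q)
    (hu : 1 ≤ u) (hv : 1 ≤ v) (huA : u ≤ A) (hvB : v ≤ B)
    (hS : (p - 1) * S + 1 = p * x) (hR : (q - 1) * R + 1 = q * y) (hR1 : R = 1 + q * r)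
    (hxS : x < S) (hyR : y < R)
    (hT1 : A * S = x * u + y * v) (hT2 : B * R = x * u + y * v)
    (hdeg : ¬ p * v * r = u) :
    x * u + y * v ≤ 2 * (A * B) ^ 3 * (A + B) := by
  have hA1 : 1 ≤ A := by linarith
  have hB1 : 1 ≤ B := by linarith
  have hAB1 : 1 ≤ A * B := by nlinarith
  set T := x * u + y * v with hT
  have hq : 2 ≤ q := by linarith
  -- the linear equation
  set D := p * q * (A * B) - q * (p - 1) * (B * u) - p * (q - 1) * (A * v) with hD
  have key : T * D = A * B * (q * u + p * v) := by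
    have e1 : p * q * (A * B) * T = A * B * (q * u * (p * x) + p * v * (q * y)) := by
      rw [hT]; ring
    rw [← hS, ← hR] at e1
    have e2 : A * B * (q * u * ((p - 1) * S + 1) + p * v * ((q - 1) * R + 1)) =
        q * (p - 1) * (B * u) * (A * S) + p * (q - 1) * (A * v) * (B * R)
          + A * B * (q * u + p * v) := by ring
    rw [e2, hT1, hT2] at e1
    rw [hD]
    linear_combination e1
  have hqu : 1 ≤ q * u + p * v := by nlinarith
  have hTpos : 0 < T := by
    have h1 : 0 < A * S := by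
      have : 0 < S := by
        by_contra h
        push Not at h
        have h2 : (p - 1) * S ≤ 0 := by nlinarith
        nlinarith
      positivity
    rw [hT1] at h1
    exact h1
  have hDpos : 1 ≤ D := by
    by_contra h
    push Not at h
    have h2 : D ≤ 0 := by omega
    have h3 : T * D ≤ 0 := by nlinarith
    have h4 : 0 < A * B * (q * u + p * v) := by positivity
    linarith
  -- the excess
  set E := B * u + A * v - A * B with hE
  have hE1 : 1 ≤ E := by
    by_contra h
    push Not at h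
    have h2 : B * u + A * v ≤ A * B := by omega
    have h3 : A * B * T = B * u * (A * x) + A * v * (B * y) := by rw [hT]; ring
    have h4 : B * u * (A * x) < B * u * (A * S) := by
      apply mul_lt_mul_of_pos_left _ (by positivity)
      exact mul_lt_mul_of_pos_left hxS (by positivity)
    have h5 : A * v * (B * y) < A * v * (B * R) := by
      apply mul_lt_mul_of_pos_left _ (by positivity)
      exact mul_lt_mul_of_pos_left hyR (by positivity)
    rw [hT1] at h4
    rw [hT2] at h5
    have h6 : A * B * T < (B * u + A * v) * T := by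
      rw [h3]
      linarith
    have h7 : (B * u + A * v) * T ≤ A * B * T := mul_le_mul_of_nonneg_right h2 hTpos.le
    linarith
  have hDE : D = q * (B * u) + p * (A * v) - p * q * E := by
    rw [hD, hE]; ring
  have hAB0 : 0 ≤ A * B := by linarith
  have hq0 : 0 ≤ q := by linarith
  have hp0 : 0 ≤ p := by linarith
  have hBu : B * u ≤ A * B := by
    have := mul_le_mul_of_nonneg_left huA (show (0 : ℤ) ≤ B by linarith)
    linarith
  have hAv : A * v ≤ A * B := mul_le_mul_of_nonneg_left hvB (by linarith)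
  have hBu0 : 1 ≤ B * u := one_le_mul_of_one_le_of_one_le hB1 hu
  have hAv0 : 1 ≤ A * v := one_le_mul_of_one_le_of_one_le hA1 hv
  -- `p < 2 A B`
  have hpE : p * E < B * u + A * v := by
    have h1 : q * (p * E) < q * (B * u + A * v) := by
      have h2 : p * (A * v) ≤ q * (A * v) := mul_le_mul_of_nonneg_right hpq (by linarith)
      have h3 : q * (p * E) = p * q * E := by ring
      rw [h3, mul_add]
      linarith
    exact lt_of_mul_lt_mul_left h1 (by linarith)
  have hp2 : p ≤ 2 * (A * B) := by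
    have h2 : p * 1 ≤ p * E := mul_le_mul_of_nonneg_left hE1 hp0
    linarith
  have hTle : T ≤ A * B * (q * u + p * v) := by
    rw [← key]
    have h2 : T * 1 ≤ T * D := mul_le_mul_of_nonneg_left hDpos hTpos.le
    linarith
  set F := p * E - B * u with hF
  have hDF : D = p * (A * v) - q * F := by
    rw [hDE, hF]; ring
  have hAB3 : A * B ≤ (A * B) ^ 3 := le_self_pow₀ hAB1 (by norm_num)
  have hAB2 : A * B ≤ (A * B) ^ 2 := le_self_pow₀ hAB1 (by norm_num)
  rcases lt_trichotomy F 0 with hneg | hzero | hpos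
  · -- `F ≤ -1`
    have h0 : q * F ≤ q * (-1) := mul_le_mul_of_nonneg_left (by omega) hq0
    have h01 : 0 ≤ p * (A * v) := mul_nonneg hp0 (by linarith)
    have h1 : q ≤ D := by linarith
    have h2 : T * q ≤ A * B * (q * u + p * v) := by
      rw [← key]
      exact mul_le_mul_of_nonneg_left h1 hTpos.le
    have h3 : A * B * (q * u + p * v) ≤ (A * B * (u + v)) * q := by
      have h5 : p * v ≤ q * v := mul_le_mul_of_nonneg_right hpq (by linarith)
      have h6 : A * B * (q * u + p * v) ≤ A * B * (q * u + q * v) :=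
        mul_le_mul_of_nonneg_left (by linarith) hAB0
      linarith
    have h4 : T ≤ A * B * (u + v) := le_of_mul_le_mul_right (h2.trans h3) (by linarith)
    have h5 : A * B * (u + v) ≤ A * B * (A + B) := mul_le_mul_of_nonneg_left (by linarith) hAB0
    have h6 : A * B * (A + B) ≤ (A * B) ^ 3 * (A + B) :=
      mul_le_mul_of_nonneg_right hAB3 (by linarith)
    have h7 : 0 ≤ (A * B) ^ 3 * (A + B) := by positivity
    linarith
  · -- `F = 0`
    exfalso
    rw [hzero, mul_zero, sub_zero] at hDF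
    rw [hDF] at key
    have h1 : A * (T * (p * v)) = A * (B * (q * u + p * v)) := by linear_combination key
    have h2 : T * (p * v) = B * (q * u + p * v) := by
      exact mul_left_cancel₀ (by linarith) h1
    rw [← hT2] at h2
    have h3 : R * (p * v) = q * u + p * v := by
      apply mul_left_cancel₀ (show B ≠ 0 by linarith)
      linear_combination h2
    rw [hR1] at h3
    have h4 : q * (p * v * r) = q * u := by linear_combination h3
    exact hdeg (mul_left_cancel₀ (by linarith) h4)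
  · -- `F ≥ 1`
    have h0 : q * 1 ≤ q * F := mul_le_mul_of_nonneg_left (by omega) hq0
    have h1 : q ≤ p * (A * v) := by linarith
    have h11 : p * (A * v) ≤ 2 * (A * B) * (A * B) :=
      mul_le_mul hp2 hAv (by linarith) (by linarith)
    have h2 : q ≤ 2 * (A * B) ^ 2 := by linarith
    have h3 : q * u ≤ 2 * (A * B) ^ 2 * A := mul_le_mul h2 huA (by linarith) (by positivity)
    have h4 : p * v ≤ 2 * (A * B) * B := mul_le_mul hp2 hvB (by linarith) (by linarith)
    have h5 : 2 * (A * B) * B ≤ 2 * (A * B) ^ 2 * B :=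
      mul_le_mul_of_nonneg_right (by linarith) (by linarith)
    have h6 : q * u + p * v ≤ 2 * (A * B) ^ 2 * (A + B) := by linarith
    calc T ≤ A * B * (q * u + p * v) := hTle
      _ ≤ A * B * (2 * (A * B) ^ 2 * (A + B)) := mul_le_mul_of_nonneg_left h6 (by linarith)
      _ = 2 * (A * B) ^ 3 * (A + B) := by ring

/-- `σ (p ^ a) = 1 + p * r` for some `r`, `p ^ a < σ (p ^ a)` for `a ≠ 0`, over the integers. -/
theorem pow_data {p a : ℕ} (hp : p.Prime) (ha : a ≠ 0) :
    (((p : ℤ) - 1) * (sigma 1 (p ^ a) : ℤ) + 1 = (p : ℤ) * (p ^ a : ℕ)) ∧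
    ((p ^ a : ℕ) : ℤ) < (sigma 1 (p ^ a) : ℤ) ∧
    ∃ r : ℕ, (sigma 1 (p ^ a) : ℤ) = 1 + (p : ℤ) * (r : ℤ) := by
  refine ⟨?_, ?_, ?_⟩
  · have h := geo hp a
    have h1 : ((p - 1 : ℕ) : ℤ) = (p : ℤ) - 1 := by
      push_cast [hp.one_lt.le]
      ring
    have h2 : ((sigma 1 (p ^ a) * (p - 1) + 1 : ℕ) : ℤ) = ((p ^ (a + 1) : ℕ) : ℤ) := by
      rw [h]
    push_cast [hp.one_lt.le] at h2 ⊢
    rw [pow_succ] at h2
    linear_combination h2
  · have h : p ^ a < sigma 1 (p ^ a) := by
      rw [sigma_one_apply_prime_pow hp, Finset.sum_range_succ]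
      have : 0 < ∑ k ∈ range a, p ^ k :=
        Finset.sum_pos (fun k _ => pow_pos hp.pos k) ⟨0, Finset.mem_range.2 (by omega)⟩
      omega
    exact_mod_cast h
  · refine ⟨∑ k ∈ range a, p ^ k, ?_⟩
    rw [sigma_one_apply_prime_pow hp, Finset.sum_range_succ', pow_zero]
    have : ∑ k ∈ range a, p ^ (k + 1) = p * ∑ k ∈ range a, p ^ k := by
      rw [Finset.mul_sum]
      exact Finset.sum_congr rfl fun k _ => by ring
    rw [this]
    push_cast
    ring

theorem bound_nat {u v p q a b : ℕ} (hp : p.Prime) (hq : q.Prime) (hpu : ¬ p ∣ u) (hqv : ¬ q ∣ v)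
    (h1 : sigma 1 (p ^ a * u) = p ^ a * u + q ^ b * v)
    (h2 : sigma 1 (q ^ b * v) = p ^ a * u + q ^ b * v) (hpq : p ≤ q) :
    p ^ a * u + q ^ b * v ≤
      2 * (sigma 1 u * sigma 1 v) ^ 3 * (sigma 1 u + sigma 1 v) := by
  have hu0 : u ≠ 0 := by rintro rfl; exact hpu (dvd_zero p)
  have hv0 : v ≠ 0 := by rintro rfl; exact hqv (dvd_zero q)
  have huA := le_sig hu0
  have hvB := le_sig hv0
  have hcu : Nat.Coprime (p ^ a) u := ((Nat.Prime.coprime_iff_not_dvd hp).2 hpu).pow_left a
  have hcv : Nat.Coprime (q ^ b) v := ((Nat.Prime.coprime_iff_not_dvd hq).2 hqv).pow_left b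
  have m1 : sigma 1 (p ^ a * u) = sigma 1 (p ^ a) * sigma 1 u :=
    isMultiplicative_sigma.map_mul_of_coprime hcu
  have m2 : sigma 1 (q ^ b * v) = sigma 1 (q ^ b) * sigma 1 v :=
    isMultiplicative_sigma.map_mul_of_coprime hcv
  have hA1 : 1 ≤ sigma 1 u := by omega
  have hB1 : 1 ≤ sigma 1 v := by omega
  have hAB1 : 1 ≤ sigma 1 u * sigma 1 v := Nat.mul_pos hA1 hB1
  have hAB3 : 1 ≤ (sigma 1 u * sigma 1 v) ^ 3 := Nat.one_le_pow _ _ hAB1
  rcases Nat.eq_zero_or_pos a with ha | ha
  · subst ha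
    rw [← h1, m1]
    simp only [pow_zero, sigma_one, one_mul]
    nlinarith
  rcases Nat.eq_zero_or_pos b with hb | hb
  · subst hb
    rw [← h2, m2]
    simp only [pow_zero, sigma_one, one_mul]
    nlinarith
  obtain ⟨s1, s2, -⟩ := pow_data (a := a) hp (by omega)
  obtain ⟨r1, r2, r, r3⟩ := pow_data (a := b) hq (by omega)
  have hT1 : (sigma 1 u : ℤ) * (sigma 1 (p ^ a) : ℤ) =
      ((p ^ a : ℕ) : ℤ) * (u : ℤ) + ((q ^ b : ℕ) : ℤ) * (v : ℤ) := by
    rw [m1] at h1
    have := congrArg (Nat.cast : ℕ → ℤ) h1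
    push_cast at this ⊢
    linear_combination this
  have hT2 : (sigma 1 v : ℤ) * (sigma 1 (q ^ b) : ℤ) =
      ((p ^ a : ℕ) : ℤ) * (u : ℤ) + ((q ^ b : ℕ) : ℤ) * (v : ℤ) := by
    rw [m2] at h2
    have := congrArg (Nat.cast : ℕ → ℤ) h2
    push_cast at this ⊢
    linear_combination this
  have hdeg : ¬ (p : ℤ) * (v : ℤ) * (r : ℤ) = (u : ℤ) := by
    intro h
    apply hpu
    have h' : p * v * r = u := by exact_mod_cast h
    exact ⟨v * r, by rw [← h']; ring⟩
  have := bound_aux (u := u) (v := v) (p := p) (q := q) (A := sigma 1 u) (B := sigma 1 v)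
    (x := ((p ^ a : ℕ) : ℤ)) (y := ((q ^ b : ℕ) : ℤ)) (S := sigma 1 (p ^ a))
    (R := sigma 1 (q ^ b)) (r := r)
    (by exact_mod_cast hp.two_le) (by exact_mod_cast hpq) (by exact_mod_cast Nat.pos_of_ne_zero hu0)
    (by exact_mod_cast Nat.pos_of_ne_zero hv0) (by exact_mod_cast huA) (by exact_mod_cast hvB)
    s1 r1 r3 s2 r2 hT1 hT2 hdeg
  exact_mod_cast this

theorem bound {u v p q a b : ℕ} (hp : p.Prime) (hq : q.Prime) (hpu : ¬ p ∣ u) (hqv : ¬ q ∣ v)
    (h : Amicable (p ^ a * u) (q ^ b * v)) :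
    p ^ a * u + q ^ b * v ≤
      2 * (sigma 1 u * sigma 1 v) ^ 3 * (sigma 1 u + sigma 1 v) := by
  obtain ⟨-, -, -, h1, h2⟩ := h
  rcases le_total p q with hpq | hpq
  · exact bound_nat hp hq hpu hqv h1 h2 hpq
  · have := bound_nat (a := b) (b := a) hq hp hqv hpu (by rw [h2]; ring) (by rw [h1]; ring) hpq
    calc p ^ a * u + q ^ b * v = q ^ b * v + p ^ a * u := by ring
      _ ≤ 2 * (sigma 1 v * sigma 1 u) ^ 3 * (sigma 1 v + sigma 1 u) := this
      _ = _ := by ring

/-! ### Part 3: uniqueness for given exponents -/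

/-- Two solutions with `p < p'`, `q < q'` and the same exponents contradict each other. -/
theorem unique_aux {u v A B p q x y S R G H p' q' x' y' S' R' G' H' : ℤ}
    (hu : 1 ≤ u) (hv : 1 ≤ v) (hA : 1 ≤ A) (hB : 1 ≤ B)
    (hG : 1 ≤ G) (hH : 1 ≤ H) (hGG : G ≤ G') (hHH : H ≤ H')
    (hS : S = G + x) (hR : R = H + y) (hS' : S' = G' + x') (hR' : R' = H' + y')
    (kS : S = 1 + p * G) (kR : R = 1 + q * H) (kS' : S' = 1 + p' * G') (kR' : R' = 1 + q' * H')
    (h1 : A * S = x * u + y * v) (h2 : B * R = x * u + y * v)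
    (h1' : A * S' = x' * u + y' * v) (h2' : B * R' = x' * u + y' * v)
    (hp : p < p') (hq : q < q') : False := by
  have e1 : (A * S) * (B * u + A * v - A * B) = A * B * (u * G + v * H) := by
    have hx : x = S - G := by linarith
    have hy : y = R - H := by linarith
    have hRS : B * R = A * S := by linarith
    have h3 : A * S = (S - G) * u + (R - H) * v := by rw [h1, hx, hy]
    linear_combination (-A * B) * h3 - A * v * hRS
  have e2 : (A * S') * (B * u + A * v - A * B) = A * B * (u * G' + v * H') := by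
    have hx : x' = S' - G' := by linarith
    have hy : y' = R' - H' := by linarith
    have hRS : B * R' = A * S' := by linarith
    have h3 : A * S' = (S' - G') * u + (R' - H') * v := by rw [h1', hx, hy]
    linear_combination (-A * B) * h3 - A * v * hRS
  have e3 : (A * B) * ((u * G + v * H) * (A * S')) = (A * B) * ((u * G' + v * H') * (A * S)) := by
    linear_combination (A * S) * e2 - (A * S') * e1
  have e4 : (u * G + v * H) * (A * S') = (u * G' + v * H') * (A * S) := by
    apply mul_left_cancel₀ _ e3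
    have : 0 < A * B := by positivity
    exact this.ne'
  have e5 : u * A * (G * S' - G' * S) + v * B * (H * R' - H' * R) = 0 := by
    have hRS : B * R = A * S := by linarith
    have hRS' : B * R' = A * S' := by linarith
    linear_combination e4 + v * H * hRS' - v * H' * hRS
  have f1 : 0 < G * S' - G' * S := by
    rw [kS, kS']
    have g1 : G * G' ≤ (p' - p) * (G * G') := by
      have : 0 ≤ G * G' := mul_nonneg (by linarith) (by linarith)
      have h3 : 1 * (G * G') ≤ (p' - p) * (G * G') := mul_le_mul_of_nonneg_right (by omega) this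
      linarith
    have g2 : 1 * G' ≤ G * G' := mul_le_mul_of_nonneg_right hG (by linarith)
    have g3 : G * (1 + p' * G') - G' * (1 + p * G) = G - G' + (p' - p) * (G * G') := by ring
    rw [g3]
    linarith
  have f2 : 0 < H * R' - H' * R := by
    rw [kR, kR']
    have g1 : H * H' ≤ (q' - q) * (H * H') := by
      have : 0 ≤ H * H' := mul_nonneg (by linarith) (by linarith)
      have h3 : 1 * (H * H') ≤ (q' - q) * (H * H') := mul_le_mul_of_nonneg_right (by omega) this
      linarith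
    have g2 : 1 * H' ≤ H * H' := mul_le_mul_of_nonneg_right hH (by linarith)
    have g3 : H * (1 + q' * H') - H' * (1 + q * H) = H - H' + (q' - q) * (H * H') := by ring
    rw [g3]
    linarith
  have f3 : 0 < u * A * (G * S' - G' * S) := by positivity
  have f4 : 0 < v * B * (H * R' - H' * R) := by positivity
  linarith

/-- The divisor sum of `p ^ a` and of `p ^ (a - 1)`. -/
theorem sig_data {p a : ℕ} (hp : p.Prime) (ha : a ≠ 0) :
    sigma 1 (p ^ a) = (∑ k ∈ range a, p ^ k) + p ^ a ∧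
    sigma 1 (p ^ a) = 1 + p * ∑ k ∈ range a, p ^ k ∧ 1 ≤ ∑ k ∈ range a, p ^ k := by
  refine ⟨?_, ?_, ?_⟩
  · rw [sigma_one_apply_prime_pow hp, Finset.sum_range_succ]
  · rw [sigma_one_apply_prime_pow hp, Finset.sum_range_succ', pow_zero, Finset.mul_sum, add_comm]
    congr 1
    exact Finset.sum_congr rfl fun k _ => by ring
  · exact Finset.sum_pos (fun k _ => pow_pos hp.pos k) ⟨0, Finset.mem_range.2 (by omega)⟩

theorem sig_lt {p p' a : ℕ} (hp : p.Prime) (hp' : p'.Prime) (ha : a ≠ 0) (h : p < p') :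
    sigma 1 (p ^ a) < sigma 1 (p' ^ a) := by
  rw [sigma_one_apply_prime_pow hp, sigma_one_apply_prime_pow hp']
  refine Finset.sum_lt_sum (fun k _ => Nat.pow_le_pow_left h.le k) ⟨a, by simp, ?_⟩
  exact Nat.pow_lt_pow_left h ha

theorem sig_le {p p' a : ℕ} (hp : p.Prime) (hp' : p'.Prime) (h : p ≤ p') :
    sigma 1 (p ^ a) ≤ sigma 1 (p' ^ a) := by
  rw [sigma_one_apply_prime_pow hp, sigma_one_apply_prime_pow hp']
  exact Finset.sum_le_sum (fun k _ => Nat.pow_le_pow_left h k)

theorem split_eqs {u v p q a b : ℕ} (hp : p.Prime) (hq : q.Prime) (hpu : ¬ p ∣ u) (hqv : ¬ q ∣ v)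
    (h : Amicable (p ^ a * u) (q ^ b * v)) :
    sigma 1 u * sigma 1 (p ^ a) = p ^ a * u + q ^ b * v ∧
    sigma 1 v * sigma 1 (q ^ b) = p ^ a * u + q ^ b * v := by
  obtain ⟨-, -, -, h1, h2⟩ := h
  have hcu : Nat.Coprime (p ^ a) u := ((Nat.Prime.coprime_iff_not_dvd hp).2 hpu).pow_left a
  have hcv : Nat.Coprime (q ^ b) v := ((Nat.Prime.coprime_iff_not_dvd hq).2 hqv).pow_left b
  rw [isMultiplicative_sigma.map_mul_of_coprime hcu] at h1
  rw [isMultiplicative_sigma.map_mul_of_coprime hcv] at h2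
  exact ⟨by rw [← h1]; ring, by rw [← h2]; ring⟩

theorem not_lt_of_two {u v p q p' q' a b : ℕ} (ha : a ≠ 0) (hb : b ≠ 0)
    (hp : p.Prime) (hq : q.Prime) (hpu : ¬ p ∣ u) (hqv : ¬ q ∣ v)
    (hp' : p'.Prime) (hq' : q'.Prime) (hpu' : ¬ p' ∣ u) (hqv' : ¬ q' ∣ v)
    (h : Amicable (p ^ a * u) (q ^ b * v)) (h' : Amicable (p' ^ a * u) (q' ^ b * v)) :
    ¬ p < p' := by
  intro hlt
  have hu0 : u ≠ 0 := by rintro rfl; exact hpu (dvd_zero p)
  have hv0 : v ≠ 0 := by rintro rfl; exact hqv (dvd_zero q)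
  have hA1 : 1 ≤ sigma 1 u := by have := le_sig hu0; omega
  have hB1 : 1 ≤ sigma 1 v := by have := le_sig hv0; omega
  obtain ⟨t1, t2⟩ := split_eqs hp hq hpu hqv h
  obtain ⟨t1', t2'⟩ := split_eqs hp' hq' hpu' hqv' h'
  have hS := sig_lt hp hp' ha hlt
  have hTT : p ^ a * u + q ^ b * v < p' ^ a * u + q' ^ b * v := by
    rw [← t1, ← t1']
    exact Nat.mul_lt_mul_of_pos_left hS hA1
  have hqq : q < q' := by
    by_contra hc
    push Not at hc
    have h3 := sig_le (a := b) hq' hq hc
    have h4 : p' ^ a * u + q' ^ b * v ≤ p ^ a * u + q ^ b * v := by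
      rw [← t2, ← t2']
      exact Nat.mul_le_mul_left _ h3
    omega
  obtain ⟨d1, d2, d3⟩ := sig_data (a := a) hp ha
  obtain ⟨e1, e2, e3⟩ := sig_data (a := b) hq hb
  obtain ⟨d1', d2', d3'⟩ := sig_data (a := a) hp' ha
  obtain ⟨e1', e2', e3'⟩ := sig_data (a := b) hq' hb
  have hGG : ∑ k ∈ range a, p ^ k ≤ ∑ k ∈ range a, p' ^ k :=
    Finset.sum_le_sum (fun k _ => Nat.pow_le_pow_left hlt.le k)
  have hHH : ∑ k ∈ range b, q ^ k ≤ ∑ k ∈ range b, q' ^ k :=
    Finset.sum_le_sum (fun k _ => Nat.pow_le_pow_left hqq.le k)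
  generalize ∑ k ∈ range a, p ^ k = G at *
  generalize ∑ k ∈ range b, q ^ k = H at *
  generalize ∑ k ∈ range a, p' ^ k = G' at *
  generalize ∑ k ∈ range b, q' ^ k = H' at *
  generalize sigma 1 (p ^ a) = S at *
  generalize sigma 1 (q ^ b) = R at *
  generalize sigma 1 (p' ^ a) = S' at *
  generalize sigma 1 (q' ^ b) = R' at *
  generalize sigma 1 u = A at *
  generalize sigma 1 v = B at *
  generalize p ^ a = x at *
  generalize q ^ b = y at *
  generalize p' ^ a = x' at *
  generalize q' ^ b = y' at *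
  exact unique_aux (u := u) (v := v) (A := A) (B := B) (p := p) (q := q) (x := x) (y := y)
    (S := S) (R := R) (G := G) (H := H) (p' := p') (q' := q') (x' := x') (y' := y') (S' := S')
    (R' := R') (G' := G') (H' := H')
    (by exact_mod_cast Nat.pos_of_ne_zero hu0) (by exact_mod_cast Nat.pos_of_ne_zero hv0)
    (by exact_mod_cast hA1) (by exact_mod_cast hB1) (by exact_mod_cast d3) (by exact_mod_cast e3)
    (by exact_mod_cast hGG) (by exact_mod_cast hHH) (by exact_mod_cast d1) (by exact_mod_cast e1)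
    (by exact_mod_cast d1') (by exact_mod_cast e1') (by exact_mod_cast d2) (by exact_mod_cast e2)
    (by exact_mod_cast d2') (by exact_mod_cast e2') (by exact_mod_cast t1) (by exact_mod_cast t2)
    (by exact_mod_cast t1') (by exact_mod_cast t2') (by exact_mod_cast hlt)
    (by exact_mod_cast hqq)

theorem amicable_comm {m n : ℕ} (h : Amicable m n) : Amicable n m := by
  obtain ⟨h1, h2, h3, h4, h5⟩ := h
  exact ⟨h2, h1, h3.symm, by rw [h5]; ring, by rw [h4]; ring⟩

theorem unique {u v p q p' q' a b : ℕ} (ha : a ≠ 0) (hb : b ≠ 0)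
    (hp : p.Prime) (hq : q.Prime) (hpu : ¬ p ∣ u) (hqv : ¬ q ∣ v)
    (hp' : p'.Prime) (hq' : q'.Prime) (hpu' : ¬ p' ∣ u) (hqv' : ¬ q' ∣ v)
    (h : Amicable (p ^ a * u) (q ^ b * v)) (h' : Amicable (p' ^ a * u) (q' ^ b * v)) :
    p = p' ∧ q = q' := by
  constructor
  · exact le_antisymm
      (not_lt.1 (not_lt_of_two ha hb hp' hq' hpu' hqv' hp hq hpu hqv h' h))
      (not_lt.1 (not_lt_of_two ha hb hp hq hpu hqv hp' hq' hpu' hqv' h h'))
  · exact le_antisymm
      (not_lt.1 (not_lt_of_two hb ha hq' hp' hqv' hpu' hq hp hqv hpu (amicable_comm h')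
        (amicable_comm h)))
      (not_lt.1 (not_lt_of_two hb ha hq hp hqv hpu hq' hp' hqv' hpu' (amicable_comm h)
        (amicable_comm h')))

/-- Every odd amicable pair `(m, n)` with `m ≡ n (mod 4)` is of the form
`(p ^ a * M ^ 2, q ^ b * N ^ 2)`, both factors in Euler's form, its sum is bounded by the two square
parts, and the square parts together with the two Euler exponents determine the pair. -/
theorem result (m n : ℕ) (hm : Odd m) (hn : Odd n) (h4 : m % 4 = n % 4) (h : Amicable m n) :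
    ∃ p a M q b N : ℕ, EulerForm m p a M ∧ EulerForm n q b N ∧
      m + n ≤ 2 * (sigma 1 (M ^ 2) * sigma 1 (N ^ 2)) ^ 3 *
        (sigma 1 (M ^ 2) + sigma 1 (N ^ 2)) ∧
      ∀ m' n' p' q' : ℕ, Amicable m' n' → EulerForm m' p' a M → EulerForm n' q' b N →
        m' = m ∧ n' = n := by
  obtain ⟨hm0, hn0, -, h1, h2⟩ := id h
  rw [Nat.odd_iff] at hm hn
  obtain ⟨p, a, M, h5⟩ := (euler_aux m (by omega) (Nat.odd_iff.2 hm)).2 (by rw [h1]; omega)
  obtain ⟨q, b, N, h6⟩ := (euler_aux n (by omega) (Nat.odd_iff.2 hn)).2 (by rw [h2]; omega)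
  refine ⟨p, a, M, q, b, N, h5, h6, ?_, ?_⟩
  · obtain ⟨hp, -, -, hpM, rfl⟩ := h5
    obtain ⟨hq, -, -, hqN, rfl⟩ := h6
    exact bound hp hq (fun hd => hpM (hp.dvd_of_dvd_pow hd)) (fun hd => hqN (hq.dvd_of_dvd_pow hd)) h
  · obtain ⟨hp, -, ha, hpM, rfl⟩ := h5
    obtain ⟨hq, -, hb, hqN, rfl⟩ := h6
    rintro m' n' p' q' h' ⟨hp', -, -, hpM', rfl⟩ ⟨hq', -, -, hqN', rfl⟩
    obtain ⟨h1, h2⟩ := unique (by omega) (by omega) hp hq (fun hd => hpM (hp.dvd_of_dvd_pow hd))
      (fun hd => hqN (hq.dvd_of_dvd_pow hd)) hp' hq' (fun hd => hpM' (hp'.dvd_of_dvd_pow hd))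
      (fun hd => hqN' (hq'.dvd_of_dvd_pow hd)) h h'
    rw [h1, h2]
    exact ⟨rfl, rfl⟩

end Pool.Agent.Results.MP_feace5_nt.SpecialPartsBounded
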